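import Pool.Agent.Y720.WE.N2

/-!
# Existence of varieties with special reduction, in all dimensions (helper720)
-/

set_option autoImplicit false
set_option linter.unusedVariables false
set_option linter.unusedSectionVars false

open Function

namespace Pool.Agent.Y720.MZ

variable {ι : Type*} [Fintype ι] [DecidableEq ι]

/-- multilinear forms -/
def f1 (l : (ι → Fin 2) → ℤ) {R : Type*} [CommRing R] (x y : ι → R) : R :=
  ∑ v : ι → Fin 2, (l v : R) * ∏ i, (x i ^ (v i : ℕ) * y i ^ (1 - (v i : ℕ)))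

/-- the sum of four exponents -/
def eu (u : Fin 4 → ι → Fin 2) : ι → Fin 5 := fun i =>
  ⟨(u 0 i : ℕ) + (u 1 i : ℕ) + (u 2 i : ℕ) + (u 3 i : ℕ), by
    have h0 := (u 0 i).2
    have h1 := (u 1 i).2
    have h2 := (u 2 i).2
    have h3 := (u 3 i).2
    omega⟩

/-- the coefficients of a product of four multilinear forms -/
def cp (l : Fin 4 → (ι → Fin 2) → ℤ) : (ι → Fin 5) → ℤ := fun e =>
  ∑ u : Fin 4 → ι → Fin 2, if eu u = e then ∏ j, l j (u j) else 0

lemma fm_cp (l : Fin 4 → (ι → Fin 2) → ℤ) {R : Type*} [CommRing R] (x y : ι → R) :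
    fm (cp l) x y = ∏ j, f1 (l j) x y := by
  have h1 : ∀ u : Fin 4 → ι → Fin 2, ∏ i, (x i ^ (eu u i : ℕ) * y i ^ (4 - (eu u i : ℕ))) =
      ∏ j, ∏ i, (x i ^ (u j i : ℕ) * y i ^ (1 - (u j i : ℕ))) := by
    intro u
    rw [Finset.prod_comm]
    refine Finset.prod_congr rfl fun i _ => ?_
    rw [Fin.prod_univ_four]
    have h0 := (u 0 i).2
    have h1 := (u 1 i).2
    have h2 := (u 2 i).2
    have h3 := (u 3 i).2
    have e1 : (eu u i : ℕ) = (u 0 i : ℕ) + (u 1 i : ℕ) + (u 2 i : ℕ) + (u 3 i : ℕ) := rfl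
    have e2 : 4 - (eu u i : ℕ) = (1 - (u 0 i : ℕ)) + (1 - (u 1 i : ℕ)) + (1 - (u 2 i : ℕ)) +
        (1 - (u 3 i : ℕ)) := by omega
    rw [e2, e1]
    simp only [pow_add]
    ring
  have h2 : ∏ j, f1 (l j) x y = ∑ u : Fin 4 → ι → Fin 2, ∏ j, ((l j (u j) : R) *
      ∏ i, (x i ^ (u j i : ℕ) * y i ^ (1 - (u j i : ℕ)))) := by
    unfold f1
    rw [Finset.prod_univ_sum, Fintype.piFinset_univ]
  rw [h2]
  unfold fm cp
  have h3 : ∀ e : ι → Fin 5, ((∑ u : Fin 4 → ι → Fin 2, if eu u = e then ∏ j, l j (u j) else 0 : ℤ)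
      : R) * ∏ i, (x i ^ (e i : ℕ) * y i ^ (4 - (e i : ℕ))) =
      ∑ u : Fin 4 → ι → Fin 2, if eu u = e then (∏ j, (l j (u j) : R)) *
        ∏ i, (x i ^ (eu u i : ℕ) * y i ^ (4 - (eu u i : ℕ))) else 0 := by
    intro e
    push_cast
    rw [Finset.sum_mul]
    refine Finset.sum_congr rfl fun u _ => ?_
    by_cases h : eu u = e
    · subst h
      simp
    · rw [if_neg h, if_neg h]
      simp
  rw [Finset.sum_congr rfl fun e _ => h3 e, Finset.sum_comm]
  refine Finset.sum_congr rfl fun u _ => ?_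
  rw [Finset.sum_ite_eq, if_pos (Finset.mem_univ _), h1, ← Finset.prod_mul_distrib]

/-- the coefficients of a linear form -/
def lv (a₀ : ℤ) (a : ι → ℤ) : (ι → Fin 2) → ℤ := fun v =>
  (if v = 0 then a₀ else 0) + ∑ i, if v = Pi.single i 1 then a i else 0

lemma f1_lv (a₀ : ℤ) (a : ι → ℤ) (x y : ι → ℤ) : f1 (lv a₀ a) x y = ln a₀ a x y := by
  have h1 : ∀ v : ι → Fin 2, lv a₀ a v * ∏ i, (x i ^ (v i : ℕ) * y i ^ (1 - (v i : ℕ))) =
      (if v = 0 then a₀ * ∏ i, y i else 0) +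
      ∑ i, if v = Pi.single i 1 then a i * (x i * ∏ l ∈ Finset.univ.erase i, y l) else 0 := by
    intro v
    rw [lv, add_mul, Finset.sum_mul]
    congr 1
    · by_cases h : v = 0
      · subst h
        simp
      · rw [if_neg h, if_neg h, zero_mul]
    · refine Finset.sum_congr rfl fun i _ => ?_
      by_cases h : v = Pi.single i 1
      · subst h
        rw [if_pos rfl, if_pos rfl, ← Finset.mul_prod_erase Finset.univ _ (Finset.mem_univ i)]
        have : ∏ l ∈ Finset.univ.erase i, (x l ^ ((Pi.single i (1 : Fin 2) : ι → Fin 2) l : ℕ) *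
            y l ^ (1 - ((Pi.single i (1 : Fin 2) : ι → Fin 2) l : ℕ))) =
            ∏ l ∈ Finset.univ.erase i, y l := by
          refine Finset.prod_congr rfl fun l hl => ?_
          rw [Pi.single_eq_of_ne (Finset.ne_of_mem_erase hl)]
          simp
        rw [this, Pi.single_eq_same]
        simp
      · rw [if_neg h, if_neg h, zero_mul]
  unfold f1
  simp only [Int.cast_id]
  rw [Finset.sum_congr rfl fun v _ => h1 v, Finset.sum_add_distrib, Finset.sum_ite_eq',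
    if_pos (Finset.mem_univ _), Finset.sum_comm]
  unfold ln
  congr 1
  refine Finset.sum_congr rfl fun i _ => ?_
  rw [Finset.sum_ite_eq', if_pos (Finset.mem_univ _)]

/-- the example -/
def exn (p : ℕ) (ν : ℤ) : (ι → Fin 5) → ℤ := fun e =>
  cp (![lv 1 (fun _ => 1), lv 1 (fun _ => 1), lv 1 (fun _ => 1), lv 1 (fun _ => ν)]) e +
    p * ∏ i, av5 ν (e i)

lemma fm_add (c d : (ι → Fin 5) → ℤ) {R : Type*} [CommRing R] (x y : ι → R) :
    fm (fun e => c e + d e) x y = fm c x y + fm d x y := by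
  unfold fm
  rw [← Finset.sum_add_distrib]
  refine Finset.sum_congr rfl fun e _ => ?_
  push_cast; ring

lemma fm_smul (k : ℤ) (c : (ι → Fin 5) → ℤ) {R : Type*} [CommRing R] (x y : ι → R) :
    fm (fun e => k * c e) x y = k * fm c x y := by
  unfold fm
  rw [Finset.mul_sum]
  refine Finset.sum_congr rfl fun e _ => ?_
  push_cast; ring

lemma fm_av (ν : ℤ) (x y : ι → ℤ) : fm (fun e => ∏ i, av5 ν (e i)) x y =
    ∏ i, (x i ^ 2 - ν * y i ^ 2) ^ 2 := by
  have h1 : ∀ i, (x i ^ 2 - ν * y i ^ 2) ^ 2 =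
      ∑ b : Fin 5, av5 ν b * (x i ^ (b : ℕ) * y i ^ (4 - (b : ℕ))) := by
    intro i
    simp [Fin.sum_univ_five, av5]
    ring
  rw [Finset.prod_congr rfl fun i _ => h1 i, Finset.prod_univ_sum, Fintype.piFinset_univ]
  unfold fm
  refine Finset.sum_congr rfl fun e _ => ?_
  show ((∏ i, av5 ν (e i) : ℤ) : ℤ) * ∏ i, (x i ^ (e i : ℕ) * y i ^ (4 - (e i : ℕ))) = _
  rw [← Finset.prod_mul_distrib]

lemma fm_exn (p : ℕ) (ν : ℤ) (x y : ι → ℤ) : fm (exn p ν) x y =
    ln 1 (fun _ => 1) x y ^ 3 * (ν * ln 1 (fun _ => 1) x y + (1 - ν) * ∏ i, y i) +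
      p * ∏ i, (x i ^ 2 - ν * y i ^ 2) ^ 2 := by
  have h1 : ln 1 (fun _ => ν) x y = ν * ln 1 (fun _ => 1) x y + (1 - ν) * ∏ i, y i := by
    unfold ln
    simp only [one_mul]
    rw [← Finset.mul_sum]
    ring
  unfold exn
  rw [fm_add, fm_smul, fm_av, fm_cp, Fin.prod_univ_four]
  simp only [Matrix.cons_val_zero, Matrix.cons_val_one, Matrix.cons_val, f1_lv]
  rw [h1]
  push_cast
  ring

lemma fm_cong {N : ℤ} {c d : (ι → Fin 5) → ℤ} (h : ∀ e, N ∣ c e - d e) (x y : ι → ℤ) :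
    N ∣ fm c x y - fm d x y := by
  unfold fm
  rw [← Finset.sum_sub_distrib]
  refine Finset.dvd_sum fun e _ => ?_
  rw [← sub_mul, Int.cast_id, Int.cast_id]
  exact (h e).mul_right _

lemma fm_zero (c : (ι → Fin 5) → ℤ) : fm c (fun _ => (0 : ℤ)) (fun _ => 1) = c 0 := by
  unfold fm
  rw [Finset.sum_eq_single 0]
  · simp
  · intro e _ he
    obtain ⟨i, hi⟩ : ∃ i, e i ≠ 0 := by
      by_contra h
      push Not at h
      exact he (funext h)
    have : ∏ i, ((0 : ℤ) ^ (e i : ℕ) * 1 ^ (4 - (e i : ℕ))) = 0 := by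
      apply Finset.prod_eq_zero (Finset.mem_univ i)
      rw [zero_pow (by
        intro h
        exact hi (Fin.ext h)), zero_mul]
    rw [this, mul_zero]
  · intro h
    exact absurd (Finset.mem_univ _) h

/-- the conditions for everything which is congruent to the example -/
lemma exn_ok {p : ℕ} [hp : Fact p.Prime] (h11 : 11 ≤ p) {ν : ℤ} (hν : ¬ IsSquare (ν : ZMod p))
    {c : (ι → Fin 5) → ℤ} (h : ∀ e, (p : ℤ) ^ 2 ∣ c e - exn p ν e) :
    SP p c ν (1 - ν) 1 (fun _ => 1) := by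
  have hpp : Prime (p : ℤ) := Nat.prime_iff_prime_int.1 hp.out
  have hp2 : (p : ℤ) ∣ (p : ℤ) ^ 2 := Dvd.intro_left _ (by ring)
  refine ⟨h11, hν, ?_, fun i => hpp.not_dvd_one, fun x y => ?_, fun x y hxy hL h0 => ?_⟩
  · intro h0
    have h1 := (ZMod.intCast_zmod_eq_zero_iff_dvd _ p).2 h0
    push_cast at h1
    apply hν
    rw [← sub_eq_zero.1 h1]
    exact ⟨1, by ring⟩
  · have h1 := hp2.trans (fm_cong h x y)
    rw [fm_exn] at h1
    have h2 : (p : ℤ) ∣ p * ∏ i, (x i ^ 2 - ν * y i ^ 2) ^ 2 := dvd_mul_right _ _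
    have h3 := dvd_add h1 h2
    have e : fm c x y - (ν * ln 1 (fun _ => 1) x y ^ 4 +
        (1 - ν) * ln 1 (fun _ => 1) x y ^ 3 * ∏ i, y i) =
        fm c x y - (ln 1 (fun _ => 1) x y ^ 3 * (ν * ln 1 (fun _ => 1) x y +
        (1 - ν) * ∏ i, y i) + p * ∏ i, (x i ^ 2 - ν * y i ^ 2) ^ 2) +
        p * ∏ i, (x i ^ 2 - ν * y i ^ 2) ^ 2 := by ring
    rw [e]
    exact h3
  · have h1 := dvd_sub h0 (fm_cong h x y)
    rw [sub_sub_cancel, fm_exn] at h1
    have h2 : (p : ℤ) ^ 2 ∣ ln 1 (fun _ => 1) x y ^ 3 * (ν * ln 1 (fun _ => 1) x y +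
        (1 - ν) * ∏ i, y i) := by
      apply Dvd.dvd.mul_right
      exact (pow_dvd_pow_of_dvd hL 2).trans (Dvd.intro _ (by ring :
        ln 1 (fun _ => 1) x y ^ 2 * ln 1 (fun _ => 1) x y = ln 1 (fun _ => 1) x y ^ 3))
    have h3 := dvd_sub h1 h2
    rw [add_sub_cancel_left, sq, mul_dvd_mul_iff_left hpp.ne_zero] at h3
    obtain ⟨i, -, hi⟩ := (Prime.dvd_finsetProd_iff hpp _).1 h3
    have h4 := hpp.dvd_of_dvd_pow hi
    have h5 := (ZMod.intCast_zmod_eq_zero_iff_dvd _ p).2 h4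
    push_cast at h5
    by_cases hy : (y i : ZMod p) = 0
    · rw [hy] at h5
      have hx : (x i : ZMod p) = 0 := by
        have : (x i : ZMod p) ^ 2 = 0 := by linear_combination h5
        exact pow_eq_zero_iff two_ne_zero |>.1 this
      exact hxy i ⟨(ZMod.intCast_zmod_eq_zero_iff_dvd _ p).1 hx,
        (ZMod.intCast_zmod_eq_zero_iff_dvd _ p).1 hy⟩
    · apply hν
      refine ⟨x i / y i, ?_⟩
      field_simp
      linear_combination -h5

section dense

variable {α : Type*} [DecidableEq α]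

/-- the substitution of a square -/
def pt0 (o : α) {R : Type*} [CommRing R] (z : α → R) : α → R :=
  fun e => if e = o then z o ^ 2 else z e

lemma pt0_dense {o : α} {P : MvPolynomial α ℂ} (hP : P ≠ 0) {N : ℤ} (hN : N ≠ 0)
    (d : α → ℤ) : ∃ t : α → ℤ,
      MvPolynomial.eval (fun a => ((pt0 o (fun i => d i + N * t i) a : ℤ) : ℂ)) P ≠ 0 := by
  by_contra hcon
  push Not at hcon
  set Q : MvPolynomial α ℂ := MvPolynomial.bind₁ (fun a : α =>
    pt0 o (fun i => (MvPolynomial.X i : MvPolynomial α ℂ)) a) P with hQ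
  have hev : ∀ z : α → ℂ, MvPolynomial.eval z Q =
      MvPolynomial.eval (fun a => pt0 o z a) P := by
    intro z
    rw [hQ, MvPolynomial.eval, MvPolynomial.eval₂Hom_bind₁]
    congr 2
    funext a
    simp only [pt0]
    split_ifs <;> simp
  have hQ0 : Q = 0 := by
    apply MvPolynomial.funext_set
      (fun a : α => Set.range fun t : ℤ => ((d a + N * t : ℤ) : ℂ))
    · intro a
      apply Set.infinite_range_of_injective
      intro t t' h
      have h' : d a + N * t = d a + N * t' := Int.cast_injective h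
      exact mul_left_cancel₀ hN (add_left_cancel h')
    · intro x hx
      have hx' : ∀ a : α, ∃ t : ℤ, ((d a + N * t : ℤ) : ℂ) = x a :=
        fun a => hx a (Set.mem_univ _)
      choose t ht using hx'
      rw [map_zero, hev, ← hcon t]
      congr 2
      funext a
      simp only [pt0]
      split_ifs with h
      · simp only [← ht]
        push_cast
        ring
      · simp only [← ht]
  apply hP
  apply MvPolynomial.funext
  intro c
  obtain ⟨u, hu⟩ := IsAlgClosed.exists_pow_nat_eq (c o) (n := 2) (by norm_num)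
  have h1 := hev (update c o u)
  rw [hQ0, map_zero] at h1
  rw [map_zero, h1]
  congr 2
  funext a
  by_cases h : a = o
  · subst h
    simp [pt0, hu]
  · simp [pt0, h]

lemma pt0_cong {o : α} {N : ℤ} {z c : α → ℤ} {ω : ℤ} (h0 : N ∣ z o - ω)
    (h1 : ∀ i, i ≠ o → N ∣ z i - c i) (h2 : N ∣ ω ^ 2 - c o) (i : α) : N ∣ pt0 o z i - c i := by
  by_cases h : i = o
  · subst h
    have e : pt0 i z i - c i = (z i - ω) * (z i + ω) + (ω ^ 2 - c i) := by
      simp [pt0]; ring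
    rw [e]
    exact dvd_add (h0.mul_right _) h2
  · have : pt0 o z i = z i := by simp [pt0, h]
    rw [this]
    exact h1 i h

end dense

/-- **there are many varieties** -/
theorem exin (S : Finset Nat.Primes) (h11 : ∀ p ∈ S, 11 ≤ (p : ℕ)) {m : ℕ} (hm0 : 0 < m)
    (hm : ∀ p ∈ S, Nat.Coprime m p) {c' : (ι → Fin 5) → ℤ} {r : ℤ}
    (hr : (m : ℤ) ∣ r ^ 2 - c' 0) {P : MvPolynomial (ι → Fin 5) ℂ} (hP : P ≠ 0) :
    ∃ (c : (ι → Fin 5) → ℤ) (w : ℤ), (∀ e, (m : ℤ) ∣ c e - c' e) ∧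
      (∀ p ∈ S, ∃ ν : ℤ, SP p c ν (1 - ν) 1 (fun _ => 1)) ∧
      w ^ 2 = c 0 ∧ (∀ p ∈ S, ¬ ((p : ℕ) : ℤ) ∣ w) ∧
      MvPolynomial.eval (fun a => ((c a : ℤ) : ℂ)) P ≠ 0 := by
  classical
  have hns : ∀ p : Nat.Primes, ∃ ν : ℤ, p ∈ S → ¬ IsSquare (ν : ZMod p) := by
    intro p
    by_cases hp : p ∈ S
    · have : Fact (p : ℕ).Prime := ⟨p.2⟩
      obtain ⟨a, ha⟩ := FiniteField.exists_nonsquare (F := ZMod p) (by
        rw [ZMod.ringChar_zmod_n]
        have := h11 p hp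
        omega)
      exact ⟨a.val, fun _ => by simpa using ha⟩
    · exact ⟨0, fun h => absurd h hp⟩
  choose ν hν using hns
  set K : Nat.Primes → ℤ := fun p => ∏ i : ι, ((0 : ℤ) ^ 2 - ν p * 1 ^ 2) ^ 2 with hK
  have hex0 : ∀ p : Nat.Primes, exn (ι := ι) p (ν p) 0 = 1 + (p : ℕ) * K p := by
    intro p
    rw [← fm_zero (exn (ι := ι) p (ν p)), fm_exn]
    have hl : ln 1 (fun _ => 1) (fun _ : ι => (0 : ℤ)) (fun _ => 1) = 1 := by
      simp [ln]
    rw [hl]
    simp only [Finset.prod_const_one, hK]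
    ring
  set t : Nat.Primes → ℤ := fun p => (((p : ℕ) : ℤ) + 1) / 2
  have ht : ∀ p ∈ S, 2 * t p = (p : ℕ) + 1 := by
    intro p hp
    have h2 := h11 p hp
    have hodd : (p : ℕ) % 2 = 1 := by
      rcases p.2.eq_two_or_odd with h | h
      · omega
      · exact h
    simp only [t]
    omega
  set ω : Nat.Primes → ℤ := fun p => 1 + (p : ℕ) * t p * K p with hω
  obtain ⟨W, hW1, hW2⟩ := crt m S hm r ω
  choose C hC1 hC2 using fun a : ι → Fin 5 =>
    crt m S hm (c' a) fun p => exn p (ν p) a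
  set d : (ι → Fin 5) → ℤ := fun e => if e = 0 then W else C e
  obtain ⟨z, hz⟩ := pt0_dense (o := (0 : ι → Fin 5)) hP (N := (NS m S : ℤ))
    (by exact_mod_cast (NS_pos hm0 S).ne') d
  have hd0 : d 0 = W := by simp [d]
  have hd : ∀ e, e ≠ 0 → d e = C e := fun e h => by simp [d, h]
  refine ⟨pt0 0 fun e => d e + NS m S * z e, d 0 + NS m S * z 0, ?_, ?_, ?_, ?_, hz⟩
  · apply pt0_cong (ω := r)
    · rw [hd0, add_sub_right_comm]
      exact dvd_add hW1 ((m_dvd_NS m S).mul_right _)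
    · intro e h
      rw [hd e h, add_sub_right_comm]
      exact dvd_add (hC1 e) ((m_dvd_NS m S).mul_right _)
    · exact hr
  · intro p hp
    have : Fact (p : ℕ).Prime := ⟨p.2⟩
    refine ⟨ν p, exn_ok (h11 p hp) (hν p hp) ?_⟩
    apply pt0_cong (ω := ω p)
    · rw [hd0, add_sub_right_comm]
      exact dvd_add (hW2 p hp) ((dvd_NS m hp).mul_right _)
    · intro e h
      rw [hd e h, add_sub_right_comm]
      exact dvd_add (hC2 e p hp) ((dvd_NS m hp).mul_right _)
    · rw [hex0]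
      refine ⟨K p + t p ^ 2 * K p ^ 2, ?_⟩
      rw [hω]
      dsimp only
      linear_combination ((p : ℕ) : ℤ) * K p * ht p hp
  · simp [pt0]
  · intro p hp h
    have hpp : Prime ((p : ℕ) : ℤ) := Nat.prime_iff_prime_int.1 p.2
    have hp2 : ((p : ℕ) : ℤ) ∣ ((p : ℕ) : ℤ) ^ 2 := Dvd.intro_left _ (by ring)
    rw [hd0] at h
    have h1 := hp2.trans (hW2 p hp)
    have h2 : ((p : ℕ) : ℤ) ∣ NS m S * z 0 := (hp2.trans (dvd_NS m hp)).mul_right _
    have h3 := dvd_sub (dvd_sub h h2) h1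
    have h4 : W + NS m S * z 0 - NS m S * z 0 - (W - ω p) = 1 + (p : ℕ) * (t p * K p) := by
      rw [hω]; ring
    rw [h4] at h3
    exact hpp.not_dvd_one ((Int.dvd_add_left (dvd_mul_right _ _)).1 h3)

end Pool.Agent.Y720.MZ
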