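import Pool.Agent.Y720.WC.C8

/-!
# Forms of degree four in each of several pairs of variables, and their slices (helper720)
-/

set_option autoImplicit false
set_option linter.unusedVariables false
set_option linter.unusedSectionVars false

open Function

namespace Pool.Agent.Y720.MZ

section form

variable {ι : Type*} [Fintype ι] [DecidableEq ι]

/-- the form with the coefficients `c`, of degree 4 in each pair `(x i, y i)` -/
def fm (c : (ι → Fin 5) → ℤ) {R : Type*} [CommRing R] (x y : ι → R) : R :=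
  ∑ e : ι → Fin 5, (c e : R) * ∏ i, (x i ^ (e i : ℕ) * y i ^ (4 - (e i : ℕ)))

lemma map_fm (c : (ι → Fin 5) → ℤ) {R S : Type*} [CommRing R] [CommRing S] (f : R →+* S)
    (x y : ι → R) : f (fm c x y) = fm c (fun i => f (x i)) (fun i => f (y i)) := by
  simp only [fm, map_sum, map_mul, map_prod, map_pow, map_intCast]

lemma fm_scale (c : (ι → Fin 5) → ℤ) {R : Type*} [CommRing R] (x y : ι → R) :
    fm c (fun i => y i * x i) y = (∏ i, y i ^ 2) ^ 2 * fm c x (fun _ => 1) := by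
  unfold fm
  rw [Finset.mul_sum]
  refine Finset.sum_congr rfl fun e _ => ?_
  rw [← Finset.prod_pow, mul_left_comm, ← Finset.prod_mul_distrib]
  congr 1
  refine Finset.prod_congr rfl fun i _ => ?_
  have h : (e i : ℕ) + (4 - (e i : ℕ)) = 4 := by have := (e i).2; omega
  rw [mul_pow, one_pow, mul_one, mul_right_comm, ← pow_add, h]
  ring

/-- the remaining coordinates -/
def rs (k j : ι) : Finset ι := (Finset.univ.erase k).erase j

lemma mem_rs {k j i : ι} : i ∈ rs k j ↔ i ≠ j ∧ i ≠ k := by simp [rs]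

lemma prod_rs {k j : ι} (hkj : k ≠ j) {R : Type*} [CommRing R] (f : ι → R) :
    ∏ i, f i = f k * (f j * ∏ i ∈ rs k j, f i) := by
  rw [rs, Finset.mul_prod_erase (Finset.univ.erase k) f
    (Finset.mem_erase.2 ⟨hkj.symm, Finset.mem_univ _⟩),
    Finset.mul_prod_erase Finset.univ f (Finset.mem_univ _)]

lemma sum_rs {k j : ι} (hkj : k ≠ j) {R : Type*} [CommRing R] (f : ι → R) :
    ∑ i, f i = f k + (f j + ∑ i ∈ rs k j, f i) := by
  rw [rs, Finset.add_sum_erase (Finset.univ.erase k) f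
    (Finset.mem_erase.2 ⟨hkj.symm, Finset.mem_univ _⟩),
    Finset.add_sum_erase Finset.univ f (Finset.mem_univ _)]

/-- the vector `x` with the coordinates `s, t` at `k, j` -/
def up {R : Type*} (k j : ι) (x : ι → R) (s t : R) : ι → R := update (update x k s) j t

lemma up_k {R : Type*} {k j : ι} (hkj : k ≠ j) (x : ι → R) (s t : R) : up k j x s t k = s := by
  rw [up, update_of_ne hkj, update_self]

lemma up_j {R : Type*} {k j : ι} (x : ι → R) (s t : R) : up k j x s t j = t := by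
  rw [up, update_self]

lemma up_ne {R : Type*} {k j i : ι} (hj : i ≠ j) (hk : i ≠ k) (x : ι → R) (s t : R) :
    up k j x s t i = x i := by
  rw [up, update_of_ne hj, update_of_ne hk]

lemma up_self {R : Type*} {k j : ι} (x : ι → R) : up k j x (x k) (x j) = x := by
  rw [up, update_eq_self, update_eq_self]

lemma map_up {R S : Type*} (f : R → S) (k j : ι) (x : ι → R) (s t : R) :
    (fun i => f (up k j x s t i)) = up k j (fun i => f (x i)) (f s) (f t) := by
  funext i
  by_cases hj : i = j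
  · subst hj; rw [up_j, up_j]
  · by_cases hk : i = k
    · subst hk; rw [up_k hj, up_k hj]
    · rw [up_ne hj hk, up_ne hj hk]

/-- the slice in the direction of the coordinates `k, j` -/
def sl (c : (ι → Fin 5) → ℤ) (k j : ι) {R : Type*} [CommRing R] (x y : ι → R) :
    Fin 5 → Fin 5 → R :=
  fun a b => ∑ e : ι → Fin 5, if e k = a ∧ e j = b then
    (c e : R) * ∏ i ∈ rs k j, (x i ^ (e i : ℕ) * y i ^ (4 - (e i : ℕ))) else 0

lemma map_sl (c : (ι → Fin 5) → ℤ) (k j : ι) {R S : Type*} [CommRing R] [CommRing S] (f : R →+* S)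
    (x y : ι → R) (a b : Fin 5) :
    f (sl c k j x y a b) = sl c k j (fun i => f (x i)) (fun i => f (y i)) a b := by
  simp only [sl, map_sum, apply_ite f, map_mul, map_prod, map_pow, map_intCast, map_zero]

lemma fm_sl (c : (ι → Fin 5) → ℤ) {k j : ι} (hkj : k ≠ j) {R : Type*} [CommRing R] (x y : ι → R)
    (s s' t t' : R) : fm c (up k j x s t) (up k j y s' t') =
      ∑ a, ∑ b, sl c k j x y a b * (s ^ (a : ℕ) * s' ^ (4 - (a : ℕ))) *
        (t ^ (b : ℕ) * t' ^ (4 - (b : ℕ))) := by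
  have h1 : ∀ e : ι → Fin 5, (c e : R) * ∏ i, (up k j x s t i ^ (e i : ℕ) *
      up k j y s' t' i ^ (4 - (e i : ℕ))) =
      ∑ a, ∑ b, (if e k = a ∧ e j = b then
        (c e : R) * ∏ i ∈ rs k j, (x i ^ (e i : ℕ) * y i ^ (4 - (e i : ℕ))) else 0) *
        (s ^ (a : ℕ) * s' ^ (4 - (a : ℕ))) * (t ^ (b : ℕ) * t' ^ (4 - (b : ℕ))) := by
    intro e
    rw [Finset.sum_eq_single (e k), Finset.sum_eq_single (e j)]
    · rw [if_pos ⟨rfl, rfl⟩, prod_rs hkj, up_k hkj, up_k hkj, up_j, up_j]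
      have : ∏ i ∈ rs k j, (up k j x s t i ^ (e i : ℕ) * up k j y s' t' i ^ (4 - (e i : ℕ))) =
          ∏ i ∈ rs k j, (x i ^ (e i : ℕ) * y i ^ (4 - (e i : ℕ))) := by
        refine Finset.prod_congr rfl fun i hi => ?_
        obtain ⟨hj, hk⟩ := mem_rs.1 hi
        rw [up_ne hj hk, up_ne hj hk]
      rw [this]
      ring
    · intro b _ hb
      rw [if_neg (fun h => hb h.2.symm), zero_mul, zero_mul]
    · intro h
      exact absurd (Finset.mem_univ _) h
    · intro a _ ha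
      refine Finset.sum_eq_zero fun b _ => ?_
      rw [if_neg (fun h => ha h.1.symm), zero_mul, zero_mul]
    · intro h
      exact absurd (Finset.mem_univ _) h
  unfold fm
  rw [Finset.sum_congr rfl fun e _ => h1 e, Finset.sum_comm]
  refine Finset.sum_congr rfl fun a _ => ?_
  rw [Finset.sum_comm]
  refine Finset.sum_congr rfl fun b _ => ?_
  rw [sl, Finset.sum_mul, Finset.sum_mul]

lemma F4_sl (c : (ι → Fin 5) → ℤ) {k j : ι} (hkj : k ≠ j) {R : Type*} [CommRing R] (x y : ι → ℤ)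
    (s t : R) : F4 (sl c k j x y) s t =
      fm c (up k j (fun i => (x i : R)) s t) (up k j (fun i => (y i : R)) 1 1) := by
  rw [fm_sl c hkj]
  unfold F4
  refine Finset.sum_congr rfl fun a _ => Finset.sum_congr rfl fun b _ => ?_
  rw [one_pow, one_pow, mul_one, mul_one]
  congr 2
  exact map_sl c k j (Int.castRingHom R) x y a b

lemma sl_44 (c : (ι → Fin 5) → ℤ) {k j : ι} (hkj : k ≠ j) (x y : ι → ℤ) :
    sl c k j x y 4 4 = fm c (up k j x 1 1) (up k j y 0 0) := by
  rw [fm_sl c hkj]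
  simp [Fin.sum_univ_five]

/-- the linear form -/
def ln (a₀ : ℤ) (a : ι → ℤ) (x y : ι → ℤ) : ℤ :=
  a₀ * ∏ i, y i + ∑ i, a i * (x i * ∏ l ∈ Finset.univ.erase i, y l)

/-- the constant term of the slice of the linear form -/
def lk (a₀ : ℤ) (a : ι → ℤ) (k j : ι) (x y : ι → ℤ) : ℤ :=
  a₀ * ∏ i ∈ rs k j, y i + ∑ i ∈ rs k j, a i * (x i * ∏ l ∈ (rs k j).erase i, y l)

lemma ln_sl (a₀ : ℤ) (a : ι → ℤ) {k j : ι} (hkj : k ≠ j) (x y : ι → ℤ) (s s' t t' : ℤ) :
    ln a₀ a (up k j x s t) (up k j y s' t') =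
      (a k * s * t' + a j * t * s') * (∏ i ∈ rs k j, y i) + lk a₀ a k j x y * (s' * t') := by
  have e0 : ∏ i ∈ rs k j, up k j y s' t' i = ∏ i ∈ rs k j, y i := by
    refine Finset.prod_congr rfl fun i hi => ?_
    obtain ⟨hj, hk⟩ := mem_rs.1 hi
    rw [up_ne hj hk]
  have e1 : ∏ l ∈ Finset.univ.erase k, up k j y s' t' l = t' * ∏ i ∈ rs k j, y i := by
    rw [← Finset.mul_prod_erase (Finset.univ.erase k) _
      (Finset.mem_erase.2 ⟨hkj.symm, Finset.mem_univ _⟩), up_j, ← e0]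
    rfl
  have e2 : ∏ l ∈ Finset.univ.erase j, up k j y s' t' l = s' * ∏ i ∈ rs k j, y i := by
    rw [← Finset.mul_prod_erase (Finset.univ.erase j) _
      (Finset.mem_erase.2 ⟨hkj, Finset.mem_univ _⟩), up_k hkj, ← e0]
    congr 1
    rw [rs, Finset.erase_right_comm]
  have e3 : ∀ i ∈ rs k j, ∏ l ∈ Finset.univ.erase i, up k j y s' t' l =
      s' * t' * ∏ l ∈ (rs k j).erase i, y l := by
    intro i hi
    obtain ⟨hj, hk⟩ := mem_rs.1 hi
    rw [← Finset.mul_prod_erase (Finset.univ.erase i) _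
      (Finset.mem_erase.2 ⟨Ne.symm hk, Finset.mem_univ _⟩), up_k hkj,
      ← Finset.mul_prod_erase ((Finset.univ.erase i).erase k) _
      (Finset.mem_erase.2 ⟨hkj.symm, Finset.mem_erase.2 ⟨Ne.symm hj, Finset.mem_univ _⟩⟩), up_j,
      ← mul_assoc]
    congr 1
    have : ((Finset.univ.erase i).erase k).erase j = (rs k j).erase i := by
      ext l; simp [rs]; tauto
    rw [this]
    refine Finset.prod_congr rfl fun l hl => ?_
    obtain ⟨hj, hk⟩ := mem_rs.1 (Finset.mem_of_mem_erase hl)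
    rw [up_ne hj hk]
  unfold ln lk
  rw [prod_rs hkj, sum_rs hkj, up_k hkj, up_k hkj, up_j, up_j, e0, e1, e2]
  have e4 : ∑ i ∈ rs k j, a i * (up k j x s t i * ∏ l ∈ Finset.univ.erase i, up k j y s' t' l) =
      s' * t' * ∑ i ∈ rs k j, a i * (x i * ∏ l ∈ (rs k j).erase i, y l) := by
    rw [Finset.mul_sum]
    refine Finset.sum_congr rfl fun i hi => ?_
    obtain ⟨hj, hk⟩ := mem_rs.1 hi
    rw [e3 i hi, up_ne hj hk]
    ring
  rw [e4]
  ring

end form

section tr

/-- the substitution `(x + γ, β y)` -/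
def tr (γ β : ℤ) (C : Fin 5 → Fin 5 → ℤ) : Fin 5 → Fin 5 → ℤ :=
  fun a b => β ^ (b : ℕ) * ∑ a' : Fin 5, C a' b * ((Nat.choose a' a : ℕ) : ℤ) *
    γ ^ ((a' : ℕ) - (a : ℕ))

lemma F4_tr (γ β : ℤ) (C : Fin 5 → Fin 5 → ℤ) {R : Type*} [CommRing R] (x y : R) :
    F4 (tr γ β C) x y = F4 C (x + γ) (β * y) := by
  have key : ∀ b : Fin 5, ∑ a : Fin 5, (tr γ β C a b : R) * x ^ (a : ℕ) =
      (β : R) ^ (b : ℕ) * ∑ a : Fin 5, (C a b : R) * (x + γ) ^ (a : ℕ) := by
    intro b
    simp only [tr, Fin.sum_univ_five]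
    simp [Nat.choose]
    ring
  have h1 : ∀ (D : Fin 5 → Fin 5 → ℤ) (u v : R), F4 D u v =
      ∑ b : Fin 5, (∑ a : Fin 5, (D a b : R) * u ^ (a : ℕ)) * v ^ (b : ℕ) := by
    intro D u v
    unfold F4
    rw [Finset.sum_comm]
    refine Finset.sum_congr rfl fun b _ => ?_
    rw [Finset.sum_mul]
  rw [h1, h1]
  refine Finset.sum_congr rfl fun b _ => ?_
  rw [key, mul_pow]
  ring

lemma tr_44 (γ β : ℤ) (C : Fin 5 → Fin 5 → ℤ) : tr γ β C 4 4 = β ^ 4 * C 4 4 := by
  simp [tr, Fin.sum_univ_five, Nat.choose]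

end tr

end Pool.Agent.Y720.MZ
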