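import Pool.Agent.Y720.WE.N1

/-!
# Special reduction in several variables: slices, integrality (helper720)
-/

set_option autoImplicit false
set_option linter.unusedVariables false
set_option linter.unusedSectionVars false

open Function Filter Topology

namespace Pool.Agent.Y720.MZ

variable {ι : Type*} [Fintype ι] [DecidableEq ι]

/-- cuspidal reduction along a linear form -/
structure SP (p : ℕ) (c : (ι → Fin 5) → ℤ) (ν β a₀ : ℤ) (a : ι → ℤ) : Prop where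
  h11 : 11 ≤ p
  hν : ¬ IsSquare (ν : ZMod p)
  hβ : ¬ (p : ℤ) ∣ β
  ha : ∀ i, ¬ (p : ℤ) ∣ a i
  h1 : ∀ x y : ι → ℤ, (p : ℤ) ∣ fm c x y - (ν * ln a₀ a x y ^ 4 + β * ln a₀ a x y ^ 3 * ∏ i, y i)
  h2 : ∀ x y : ι → ℤ, (∀ i, ¬ ((p : ℤ) ∣ x i ∧ (p : ℤ) ∣ y i)) → (p : ℤ) ∣ ln a₀ a x y →
    ¬ (p : ℤ) ^ 2 ∣ fm c x y

section one

variable {p : ℕ} [hp : Fact p.Prime] {c : (ι → Fin 5) → ℤ} {ν β a₀ : ℤ} {a : ι → ℤ}

lemma SP.nν (H : SP p c ν β a₀ a) : (ν : ZMod p) ≠ 0 := by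
  intro h0
  exact H.hν (by rw [h0]; exact IsSquare.zero)

lemma SP.nβ (H : SP p c ν β a₀ a) : (β : ZMod p) ≠ 0 := by
  intro h0
  exact H.hβ ((ZMod.intCast_zmod_eq_zero_iff_dvd _ p).1 h0)

lemma SP.na (H : SP p c ν β a₀ a) (i : ι) : (a i : ZMod p) ≠ 0 := by
  intro h0
  exact H.ha i ((ZMod.intCast_zmod_eq_zero_iff_dvd _ p).1 h0)

/-- the slices have cuspidal reduction -/
theorem SP.slice (H : SP p c ν β a₀ a) {k j : ι} (hkj : k ≠ j) {x y : ι → ℤ}
    (hy : ∀ i, ¬ (p : ℤ) ∣ y i) {γ b' : ℤ} (h1 : (p : ℤ) ∣ a j * b' + a k)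
    (h2 : (p : ℤ) ∣ a k * (∏ i ∈ rs k j, y i) * γ + lk a₀ a k j x y) :
    ∃ (ν' b'' : ℤ) (h : Fin 5 → Fin 5 → ℤ), G4 p (tr γ b' (sl c k j x y)) h ν' b'' := by
  have hpp : Prime (p : ℤ) := Nat.prime_iff_prime_int.1 hp.out
  set Y := ∏ i ∈ rs k j, y i with hYd
  have hY : (Y : ZMod p) ≠ 0 := by
    intro h0
    have h3 := (ZMod.intCast_zmod_eq_zero_iff_dvd _ p).1 h0
    obtain ⟨i, -, hi⟩ := (Prime.dvd_finsetProd_iff hpp _).1 h3
    exact hy i hi
  have hak := H.na k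
  have hν0 := H.nν
  have hβ0 := H.nβ
  have z1 : (a j : ZMod p) * b' + a k = 0 := by
    have := (ZMod.intCast_zmod_eq_zero_iff_dvd _ p).2 h1
    push_cast at this; exact this
  have z2 : (a k : ZMod p) * Y * γ + lk a₀ a k j x y = 0 := by
    have := (ZMod.intCast_zmod_eq_zero_iff_dvd _ p).2 h2
    push_cast at this; exact this
  have hb' : (b' : ZMod p) ≠ 0 := by
    intro h0
    rw [h0, mul_zero, zero_add] at z1
    exact hak z1
  set u : ZMod p := a k * Y with hu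
  have hu0 : u ≠ 0 := mul_ne_zero hak hY
  set v : ZMod p := (ν * u)⁻¹ with hv
  have hv1 : (ν : ZMod p) * u * v = 1 := mul_inv_cancel₀ (mul_ne_zero hν0 hu0)
  have hvz : ((v.val : ℤ) : ZMod p) = v := by simp
  have hv0 : v ≠ 0 := inv_ne_zero (mul_ne_zero hν0 hu0)
  have hxc : (fun i => ((x i : ℤ) : ℤ)) = x := rfl
  -- the linear form
  have hL : ∀ s t : ℤ, ((ln a₀ a (up k j x (s + γ) (b' * t)) (up k j y 1 1) : ℤ) : ZMod p) =
      u * (s - t) := by
    intro s t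
    rw [ln_sl a₀ a hkj, ← hYd]
    push_cast
    rw [hu] at z2
    rw [hu]
    linear_combination z2 + (Y : ZMod p) * t * z1
  have hM : ∏ i, up k j y 1 1 i = Y := by
    rw [prod_rs hkj, up_k hkj, up_j, one_mul, one_mul]
    refine Finset.prod_congr rfl fun i hi => ?_
    obtain ⟨hj, hk⟩ := mem_rs.1 hi
    rw [up_ne hj hk]
  have hF : ∀ s t : ℤ, F4 (tr γ b' (sl c k j x y)) s t =
      fm c (up k j x (s + γ) (b' * t)) (up k j y 1 1) := by
    intro s t
    rw [F4_tr, F4_sl c hkj]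
    simp
  refine ⟨ν * (a k * Y) ^ 4, (v.val : ℤ) * β * Y, ?_⟩
  apply G4.of_int H.h11
  · rintro ⟨r, hr⟩
    apply H.hν
    push_cast at hr
    refine ⟨r / u ^ 2, ?_⟩
    field_simp
    rw [← hu] at hr
    linear_combination hr
  · intro h0
    have h3 := (ZMod.intCast_zmod_eq_zero_iff_dvd _ p).2 h0
    push_cast at h3
    rw [ZMod.natCast_zmod_val] at h3
    exact mul_ne_zero (mul_ne_zero hv0 hβ0) hY h3
  · intro s t
    rw [hF]
    have h3 := (ZMod.intCast_zmod_eq_zero_iff_dvd _ p).2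
      (H.h1 (up k j x (s + γ) (b' * t)) (up k j y 1 1))
    rw [hM] at h3
    rw [← ZMod.intCast_zmod_eq_zero_iff_dvd]
    have h4 := hL s t
    push_cast at h3 h4 ⊢
    rw [ZMod.natCast_zmod_val, ← hu]
    rw [h4] at h3
    linear_combination h3 - β * Y * u ^ 3 * (s - t) ^ 3 * hv1
  · intro s
    rw [hF]
    apply H.h2
    · intro i
      by_cases hj : i = j
      · subst hj
        rw [up_j, up_j]
        exact fun h => hpp.not_dvd_one h.2
      · by_cases hk : i = k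
        · subst hk
          rw [up_k hkj, up_k hkj]
          exact fun h => hpp.not_dvd_one h.2
        · rw [up_ne hj hk, up_ne hj hk]
          exact fun h => hy i h.2
    · rw [← ZMod.intCast_zmod_eq_zero_iff_dvd, hL, sub_self, mul_zero]
  · rw [tr_44, sl_44 c hkj]
    intro h0
    have hc : IsCoprime ((p : ℤ) ^ 2) (b' ^ 4) := by
      apply IsCoprime.pow
      rw [Prime.coprime_iff_not_dvd hpp]
      intro h3
      exact hb' ((ZMod.intCast_zmod_eq_zero_iff_dvd _ p).2 h3)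
    refine H.h2 _ _ ?_ ?_ (hc.dvd_of_dvd_mul_left h0)
    · intro i
      by_cases hj : i = j
      · subst hj
        rw [up_j, up_j]
        exact fun h => hpp.not_dvd_one h.1
      · by_cases hk : i = k
        · subst hk
          rw [up_k hkj, up_k hkj]
          exact fun h => hpp.not_dvd_one h.1
        · rw [up_ne hj hk, up_ne hj hk]
          exact fun h => hy i h.2
    · rw [ln_sl a₀ a hkj]
      simp

lemma coe_fm (c : (ι → Fin 5) → ℤ) (x y : ι → ℤ_[p]) :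
    ((fm c x y : ℤ_[p]) : ℚ_[p]) = fm c (fun i => (x i : ℚ_[p])) (fun i => (y i : ℚ_[p])) :=
  map_fm c (PadicInt.Coe.ringHom (p := p)) x y

/-- integral approximations -/
lemma appr2 (x : ℤ_[p]) : ∃ (n : ℤ) (g : ℤ_[p]), x = n + (p : ℤ_[p]) ^ 2 * g := by
  have h1 : PadicInt.toZModPow 2 (x - ((((PadicInt.toZModPow 2 x).val : ℕ) : ℤ) : ℤ_[p])) = 0 := by
    rw [map_sub, map_intCast, Int.cast_natCast, ZMod.natCast_zmod_val, sub_self]
  rw [← RingHom.mem_ker, PadicInt.ker_toZModPow, Ideal.mem_span_singleton] at h1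
  obtain ⟨g, hg⟩ := h1
  exact ⟨_, g, by rw [← hg]; ring⟩

lemma toZ_cast (n : ℤ) : PadicInt.toZMod (n : ℤ_[p]) = (n : ZMod p) := map_intCast _ n

lemma fm_appr (c : (ι → Fin 5) → ℤ) {x y : ι → ℤ_[p]} {x' y' : ι → ℤ}
    (hx : ∀ i, ∃ g : ℤ_[p], x i = x' i + (p : ℤ_[p]) ^ 2 * g)
    (hy : ∀ i, ∃ g : ℤ_[p], y i = y' i + (p : ℤ_[p]) ^ 2 * g) :
    ∃ g : ℤ_[p], fm c x y = (fm c x' y' : ℤ) + (p : ℤ_[p]) ^ 2 * g := by
  have hz : ∀ {x : ℤ_[p]} {x' : ℤ}, (∃ g : ℤ_[p], x = x' + (p : ℤ_[p]) ^ 2 * g) →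
      PadicInt.toZModPow 2 x = (x' : ZMod (p ^ 2)) := by
    rintro x x' ⟨g, rfl⟩
    have : PadicInt.toZModPow 2 ((p : ℤ_[p]) ^ 2) = 0 := by
      rw [← RingHom.mem_ker, PadicInt.ker_toZModPow]
      exact Ideal.mem_span_singleton_self _
    rw [map_add, map_mul, this, zero_mul, add_zero, map_intCast]
  have h1 : PadicInt.toZModPow 2 (fm c x y - ((fm c x' y' : ℤ) : ℤ_[p])) = 0 := by
    rw [map_sub, map_fm, map_intCast, sub_eq_zero]
    have h2 := map_fm c (Int.castRingHom (ZMod (p ^ 2))) x' y'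
    rw [eq_intCast] at h2
    rw [h2]
    congr 1
    · funext i; exact hz (hx i)
    · funext i; exact hz (hy i)
  rw [← RingHom.mem_ker, PadicInt.ker_toZModPow, Ideal.mem_span_singleton] at h1
  obtain ⟨g, hg⟩ := h1
  exact ⟨g, by rw [← hg]; ring⟩

/-- **All the local points are integral.** -/
theorem SP.int (H : SP p c ν β a₀ a) {X : ι → ℚ_[p]} {W : ℚ_[p]} (hW : W ^ 2 = fm c X fun _ => 1)
    (i₀ : ι) : ‖X i₀‖ ≤ 1 := by
  by_contra hcon
  have hpp : Prime (p : ℤ) := Nat.prime_iff_prime_int.1 hp.out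
  have hex : ∀ i, ∃ ξ η : ℤ_[p], (ξ : ℚ_[p]) = η * X i ∧
      ((η = 1 ∧ ‖X i‖ ≤ 1) ∨ (ξ = 1 ∧ PadicInt.toZMod η = 0)) := by
    intro i
    by_cases h : ‖X i‖ ≤ 1
    · exact ⟨⟨X i, h⟩, 1, by simp, Or.inl ⟨rfl, h⟩⟩
    · push Not at h
      have h0 : X i ≠ 0 := by
        intro h0; rw [h0, norm_zero] at h; linarith
      have h1 : ‖(X i)⁻¹‖ < 1 := by
        rw [norm_inv]; exact inv_lt_one_of_one_lt₀ h
      obtain ⟨q, hq⟩ : ∃ q : ℤ_[p], (q : ℚ_[p]) = (X i)⁻¹ := ⟨⟨_, h1.le⟩, rfl⟩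
      refine ⟨1, q, ?_, Or.inr ⟨rfl, ?_⟩⟩
      · rw [PadicInt.coe_one, hq]
        exact (inv_mul_cancel₀ h0).symm
      · rw [red_zero, ← coe_norm, hq]; exact h1
  choose ξ η h1 h2 using hex
  have hη : PadicInt.toZMod (η i₀) = 0 := by
    rcases h2 i₀ with h | h
    · exact absurd h.2 hcon
    · exact h.2
  choose ξ' gξ hξ using fun i => appr2 (ξ i)
  choose η' gη hη' using fun i => appr2 (η i)
  obtain ⟨g, hg⟩ := fm_appr c (x := ξ) (y := η) (fun i => ⟨_, hξ i⟩) (fun i => ⟨_, hη' i⟩)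
  -- the square
  have hsq : ((∏ i, (η i : ℚ_[p]) ^ 2) * W) ^ 2 = ((fm c ξ η : ℤ_[p]) : ℚ_[p]) := by
    rw [coe_fm, funext h1, fm_scale, mul_pow, hW]
  obtain ⟨Z, hZ1, hZ2⟩ := int_of_sq hsq
  -- reductions
  have rη : ∀ i, PadicInt.toZMod (η i) = (η' i : ZMod p) := by
    intro i
    rw [hη' i, map_add, map_mul, map_pow, toZ_p, toZ_cast]; ring
  have hprim : ∀ i, ¬ ((p : ℤ) ∣ ξ' i ∧ (p : ℤ) ∣ η' i) := by
    rintro i ⟨d1, d2⟩
    rw [← ZMod.intCast_zmod_eq_zero_iff_dvd] at d1 d2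
    rcases h2 i with h | h
    · have := rη i
      rw [h.1, map_one, d2] at this
      exact one_ne_zero this
    · have : PadicInt.toZMod (ξ i) = (ξ' i : ZMod p) := by
        rw [hξ i, map_add, map_mul, map_pow, toZ_p, toZ_cast]; ring
      rw [h.1, map_one, d1] at this
      exact one_ne_zero this
  have hM : ((∏ i, η' i : ℤ) : ZMod p) = 0 := by
    push_cast
    exact Finset.prod_eq_zero (Finset.mem_univ i₀) (by rw [← rη, hη])
  have hF : ((fm c ξ' η' : ℤ) : ZMod p) = ν * (ln a₀ a ξ' η' : ZMod p) ^ 4 := by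
    have h3 := (ZMod.intCast_zmod_eq_zero_iff_dvd _ p).2 (H.h1 ξ' η')
    push_cast at h3 hM
    rw [hM, mul_zero, add_zero] at h3
    exact sub_eq_zero.1 h3
  by_cases hL : (p : ℤ) ∣ ln a₀ a ξ' η'
  · have h3 : (p : ℤ) ∣ fm c ξ' η' := by
      rw [← ZMod.intCast_zmod_eq_zero_iff_dvd, hF, (ZMod.intCast_zmod_eq_zero_iff_dvd _ p).2 hL]
      ring
    obtain ⟨f, hf⟩ := h3
    refine nsq_p (z := (∏ i, (η i : ℚ_[p]) ^ 2) * W) (a := (f : ℤ_[p]) + p * g) ?_ ?_
    · rw [hsq, hg, hf]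
      push_cast
      ring
    · rw [map_add, map_mul, toZ_p, zero_mul, add_zero, toZ_cast]
      intro h4
      rw [ZMod.intCast_zmod_eq_zero_iff_dvd] at h4
      apply H.h2 ξ' η' hprim hL
      rw [hf, sq]
      exact mul_dvd_mul_left _ h4
  · rw [← ZMod.intCast_zmod_eq_zero_iff_dvd] at hL
    apply H.hν
    have h3 := congrArg PadicInt.toZMod hZ2
    rw [hg, map_add, map_mul, map_pow, map_pow, toZ_p, toZ_cast, hF] at h3
    refine ⟨PadicInt.toZMod Z / (ln a₀ a ξ' η' : ZMod p) ^ 2, ?_⟩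
    field_simp
    linear_combination -h3

/-- the reduction of the value -/
lemma SP.red (H : SP p c ν β a₀ a) (X : ι → ℤ_[p]) :
    PadicInt.toZMod (fm c X fun _ => 1) =
      ν * ((a₀ : ZMod p) + ∑ i, (a i : ZMod p) * PadicInt.toZMod (X i)) ^ 4 +
      β * ((a₀ : ZMod p) + ∑ i, (a i : ZMod p) * PadicInt.toZMod (X i)) ^ 3 := by
  set x : ι → ℤ := fun i => ((PadicInt.toZMod (X i)).val : ℤ) with hx
  have hxi : ∀ i, ((x i : ℤ) : ZMod p) = PadicInt.toZMod (X i) := fun i => by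
    rw [hx]; dsimp only; rw [Int.cast_natCast, ZMod.natCast_zmod_val]
  have h3 := (ZMod.intCast_zmod_eq_zero_iff_dvd _ p).2 (H.h1 x fun _ => 1)
  have hln : ((ln a₀ a x (fun _ => 1) : ℤ) : ZMod p) =
      (a₀ : ZMod p) + ∑ i, (a i : ZMod p) * PadicInt.toZMod (X i) := by
    unfold ln
    simp only [Finset.prod_const_one, mul_one]
    push_cast
    congr 1
    refine Finset.sum_congr rfl fun i _ => ?_
    rw [hxi]
  have h4 : ((fm c x (fun _ => 1) : ℤ) : ZMod p) = PadicInt.toZMod (fm c X fun _ => 1) := by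
    have h5 := map_fm c (Int.castRingHom (ZMod p)) x (fun _ => 1)
    rw [eq_intCast] at h5
    rw [h5, map_fm]
    congr 1
    · funext i; rw [eq_intCast]; exact hxi i
    · funext i; rw [map_one, map_one]
  push_cast at h3
  rw [hln, h4] at h3
  simp only [Finset.prod_const_one, mul_one] at h3
  exact sub_eq_zero.1 h3

lemma SP.nz (H : SP p c ν β a₀ a) {n : ℕ} (h0 : n ≠ 0) (h1 : n < 11) : (n : ZMod p) ≠ 0 := by
  intro h2
  rw [ZMod.natCast_eq_zero_iff] at h2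
  have := Nat.le_of_dvd (Nat.pos_of_ne_zero h0) h2
  have := H.h11
  omega

/-- there are points over units -/
lemma SP.unit_pt (H : SP p c ν β a₀ a) (j : ι) (X : ι → ℤ_[p]) :
    ∃ t W : ℤ_[p], W ^ 2 = fm c (update X j t) (fun _ => 1) ∧ ‖W‖ = 1 := by
  have h2 : (2 : ZMod p) ≠ 0 := by
    have := H.nz (n := 2) (by norm_num) (by norm_num)
    exact_mod_cast this
  have hd : (1 : ZMod p) - ν ≠ 0 := by
    intro h0
    apply H.hν
    rw [← sub_eq_zero.1 h0]
    exact ⟨1, by ring⟩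
  set l : ZMod p := β / (1 - ν) with hl
  have hl1 : l * (1 - ν) = β := div_mul_cancel₀ _ hd
  have hl0 : l ≠ 0 := div_ne_zero H.nβ hd
  set ℓ : ZMod p := (a₀ : ZMod p) + ∑ i, (a i : ZMod p) * PadicInt.toZMod (X i) with hℓ
  obtain ⟨t, ht⟩ := lift_red (q := p) (PadicInt.toZMod (X j) + (l - ℓ) / a j)
  have key : (a₀ : ZMod p) + ∑ i, (a i : ZMod p) * PadicInt.toZMod (update X j t i) = l := by
    have h3 : ∑ i, (a i : ZMod p) * PadicInt.toZMod (update X j t i) =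
        ∑ i, (a i : ZMod p) * PadicInt.toZMod (X i) +
        (a j : ZMod p) * (PadicInt.toZMod t - PadicInt.toZMod (X j)) := by
      rw [← Finset.add_sum_erase _ _ (Finset.mem_univ j),
        ← Finset.add_sum_erase Finset.univ (fun i => (a i : ZMod p) * PadicInt.toZMod (X i))
          (Finset.mem_univ j), update_self]
      have : ∑ i ∈ Finset.univ.erase j, (a i : ZMod p) * PadicInt.toZMod (update X j t i) =
          ∑ i ∈ Finset.univ.erase j, (a i : ZMod p) * PadicInt.toZMod (X i) := by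
        refine Finset.sum_congr rfl fun i hi => ?_
        rw [update_of_ne (Finset.ne_of_mem_erase hi)]
      rw [this]
      ring
    rw [h3, ht, ← add_assoc, ← hℓ, add_sub_cancel_left, mul_div_cancel₀ _ (H.na j)]
    ring
  obtain ⟨W, hW1, hW2⟩ := unit_sq (a := fm c (update X j t) (fun _ => 1)) h2 (t := l ^ 2)
    (pow_ne_zero 2 hl0) (by
      rw [H.red, key]
      linear_combination (-l ^ 3) * hl1)
  exact ⟨t, W, hW1, hW2⟩

end one

end Pool.Agent.Y720.MZ
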