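import Pool.Agent.Y720.WE.N2

/-!
# Special reduction in several variables: density (helper720)
-/

set_option autoImplicit false
set_option linter.unusedVariables false
set_option linter.unusedSectionVars false

open Function Filter Topology

namespace Pool.Agent.Y720.MZ

variable {ι : Type*} [Fintype ι] [DecidableEq ι]

/-- the coefficients as a polynomial in one variable -/
def co (c : (ι → Fin 5) → ℤ) (j : ι) {R : Type*} [CommRing R] (x : ι → R) : Fin 5 → R :=
  fun b => ∑ e : ι → Fin 5, if e j = b then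
    (c e : R) * ∏ i ∈ Finset.univ.erase j, x i ^ (e i : ℕ) else 0

lemma map_co (c : (ι → Fin 5) → ℤ) (j : ι) {R S : Type*} [CommRing R] [CommRing S] (f : R →+* S)
    (x : ι → R) (b : Fin 5) : f (co c j x b) = co c j (fun i => f (x i)) b := by
  simp only [co, map_sum, apply_ite f, map_mul, map_prod, map_pow, map_intCast, map_zero]

lemma fm_co (c : (ι → Fin 5) → ℤ) (j : ι) {R : Type*} [CommRing R] (x : ι → R) (t : R) :
    fm c (update x j t) (fun _ => 1) = ∑ b, co c j x b * t ^ (b : ℕ) := by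
  have h1 : ∀ e : ι → Fin 5, (c e : R) * ∏ i, (update x j t i ^ (e i : ℕ) *
      (1 : R) ^ (4 - (e i : ℕ))) = ∑ b, (if e j = b then
        (c e : R) * ∏ i ∈ Finset.univ.erase j, x i ^ (e i : ℕ) else 0) * t ^ (b : ℕ) := by
    intro e
    rw [Finset.sum_eq_single (e j)]
    · rw [if_pos rfl, ← Finset.mul_prod_erase Finset.univ _ (Finset.mem_univ j), update_self]
      have : ∏ i ∈ Finset.univ.erase j, (update x j t i ^ (e i : ℕ) *
          (1 : R) ^ (4 - (e i : ℕ))) = ∏ i ∈ Finset.univ.erase j, x i ^ (e i : ℕ) := by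
        refine Finset.prod_congr rfl fun i hi => ?_
        rw [update_of_ne (Finset.ne_of_mem_erase hi), one_pow, mul_one]
      rw [this]
      ring
    · intro b _ hb
      rw [if_neg (fun h => hb h.symm), zero_mul]
    · intro h
      exact absurd (Finset.mem_univ _) h
  unfold fm
  rw [Finset.sum_congr rfl fun e _ => h1 e, Finset.sum_comm]
  refine Finset.sum_congr rfl fun b _ => ?_
  rw [co, Finset.sum_mul]

section one

variable {p : ℕ} [hp : Fact p.Prime] {c : (ι → Fin 5) → ℤ} {ν β a₀ : ℤ} {a : ι → ℤ}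

lemma SP.lift (H : SP p c ν β a₀ a) {X : ι → ℚ_[p]} {W : ℚ_[p]}
    (hW : W ^ 2 = fm c X fun _ => 1) : ∃ X0 : ι → ℤ_[p], X = fun i => (X0 i : ℚ_[p]) :=
  ⟨fun i => ⟨X i, H.int hW i⟩, rfl⟩

/-- points with zero ordinate are limits of points with nonzero ordinate -/
lemma SP.near (H : SP p c ν β a₀ a) (j : ι) {X : ι → ℚ_[p]} {W : ℚ_[p]}
    (hW : W ^ 2 = fm c X fun _ => 1) {η : ℝ} (hη : 0 < η) :
    ∃ t W' : ℚ_[p], W' ≠ 0 ∧ W' ^ 2 = fm c (update X j t) (fun _ => 1) ∧ ‖t - X j‖ < η ∧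
      ‖W' - W‖ < η := by
  by_cases hW0 : W = 0
  · subst hW0
    obtain ⟨X0, hX0⟩ := H.lift hW
    have hz : fm c X0 (fun _ => 1) = 0 := by
      have h1 := coe_fm c X0 fun _ => 1
      rw [← hX0, PadicInt.coe_one, ← hW, zero_pow two_ne_zero] at h1
      exact PadicInt.ext h1
    -- the linear form is a unit
    set τ₀ : ZMod p := PadicInt.toZMod (X0 j) with hτ₀
    set r : ZMod p := (a₀ : ZMod p) + ∑ i ∈ Finset.univ.erase j,
      (a i : ZMod p) * PadicInt.toZMod (X0 i) with hr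
    have hℓ : ∀ T : ℤ_[p], (a₀ : ZMod p) + ∑ i, (a i : ZMod p) *
        PadicInt.toZMod (update X0 j T i) = r + a j * PadicInt.toZMod T := by
      intro T
      rw [← Finset.add_sum_erase _ _ (Finset.mem_univ j), update_self]
      have : ∑ i ∈ Finset.univ.erase j, (a i : ZMod p) * PadicInt.toZMod (update X0 j T i) =
          ∑ i ∈ Finset.univ.erase j, (a i : ZMod p) * PadicInt.toZMod (X0 i) := by
        refine Finset.sum_congr rfl fun i hi => ?_
        rw [update_of_ne (Finset.ne_of_mem_erase hi)]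
      rw [this, hr]
      ring
    have hv : ∀ T : ℤ_[p], PadicInt.toZMod (fm c (update X0 j T) fun _ => 1) =
        ν * (r + a j * PadicInt.toZMod T) ^ 4 + β * (r + a j * PadicInt.toZMod T) ^ 3 := by
      intro T
      rw [H.red, hℓ]
    have hℓ0 : r + a j * τ₀ ≠ 0 := by
      intro h0
      choose x' g hg using fun i => appr2 (X0 i)
      obtain ⟨g', hg'⟩ := fm_appr c (x := X0) (y := fun _ => 1) (x' := x') (y' := fun _ => 1)
        (fun i => ⟨_, hg i⟩) (fun i => ⟨0, by simp⟩)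
      have h1 : ((ln a₀ a x' (fun _ => 1) : ℤ) : ZMod p) = 0 := by
        rw [← h0, hτ₀, ← hℓ (X0 j), update_eq_self]
        unfold ln
        simp only [Finset.prod_const_one, mul_one]
        push_cast
        congr 1
        refine Finset.sum_congr rfl fun i _ => ?_
        rw [hg i, map_add, map_mul, map_pow, toZ_p, toZ_cast]
        ring
      apply H.h2 x' (fun _ => 1) (fun i h => (Nat.prime_iff_prime_int.1 hp.out).not_dvd_one h.2)
        ((ZMod.intCast_zmod_eq_zero_iff_dvd _ p).1 h1)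
      have h2 : PadicInt.toZModPow 2 ((fm c x' (fun _ => 1) : ℤ) : ℤ_[p]) = 0 := by
        rw [← RingHom.mem_ker, PadicInt.ker_toZModPow, Ideal.mem_span_singleton]
        refine ⟨-g', ?_⟩
        rw [hz] at hg'
        linear_combination -hg'
      rw [map_intCast, ZMod.intCast_zmod_eq_zero_iff_dvd] at h2
      exact_mod_cast h2
    have hzero : (ν : ZMod p) * (r + a j * τ₀) + β = 0 := by
      have h1 := hv (X0 j)
      rw [update_eq_self, hz, map_zero, ← hτ₀] at h1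
      have h2 : (r + a j * τ₀) ^ 3 * ((ν : ZMod p) * (r + a j * τ₀) + β) = 0 := by
        rw [h1]; ring
      exact (mul_eq_zero.1 h2).resolve_left (pow_ne_zero 3 hℓ0)
    -- the derivative
    set f : Fin 5 → ℤ_[p] := co c j X0 with hf
    have hfv : ∀ T : ℤ_[p], fm c (update X0 j T) (fun _ => 1) = ∑ b, f b * T ^ (b : ℕ) :=
      fun T => fm_co c j X0 T
    have h5 := five H.h11 (a := fun b => PadicInt.toZMod (f b) -
      (![ν * r ^ 4 + β * r ^ 3, a j * (4 * ν * r ^ 3 + 3 * β * r ^ 2),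
        a j ^ 2 * (6 * ν * r ^ 2 + 3 * β * r), a j ^ 3 * (4 * ν * r + β),
        ν * a j ^ 4] : Fin 5 → ZMod p) b) (by
      intro τ
      obtain ⟨T, hT⟩ := lift_red (q := p) τ
      have h1 := hv T
      rw [hfv, map_sum] at h1
      simp only [map_mul, map_pow, hT] at h1
      have h2 : ∑ b : Fin 5, (PadicInt.toZMod (f b) -
          (![ν * r ^ 4 + β * r ^ 3, a j * (4 * ν * r ^ 3 + 3 * β * r ^ 2),
          a j ^ 2 * (6 * ν * r ^ 2 + 3 * β * r), a j ^ 3 * (4 * ν * r + β),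
          ν * a j ^ 4] : Fin 5 → ZMod p) b) * τ ^ (b : ℕ) =
          ∑ b : Fin 5, PadicInt.toZMod (f b) * τ ^ (b : ℕ) -
          ((ν : ZMod p) * (r + a j * τ) ^ 4 + β * (r + a j * τ) ^ 3) := by
        simp [Fin.sum_univ_five]
        ring
      rw [h2, h1, sub_self])
    have f1 := sub_eq_zero.1 (h5 1)
    have f2 := sub_eq_zero.1 (h5 2)
    have f3 := sub_eq_zero.1 (h5 3)
    have f4 := sub_eq_zero.1 (h5 4)
    simp only [Matrix.cons_val_one, Matrix.cons_val_zero, Matrix.cons_val] at f1 f2 f3 f4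
    set D : ℤ_[p] := f 1 + 2 * f 2 * X0 j + 3 * f 3 * X0 j ^ 2 + 4 * f 4 * X0 j ^ 3 with hD
    have hD1 : PadicInt.toZMod D ≠ 0 := by
      have h1 : PadicInt.toZMod D = -((a j : ZMod p) * (r + a j * τ₀) ^ 2 * β) -
          0 + 4 * (a j : ZMod p) * (r + a j * τ₀) ^ 2 * β - 0 -
          (4 * (a j : ZMod p) * (r + a j * τ₀) ^ 2 * β) := by
        rw [hD]
        simp only [map_add, map_mul, map_pow, map_ofNat]
        rw [f1, f2, f3, f4, ← hτ₀]
        linear_combination 4 * (a j : ZMod p) * (r + a j * τ₀) ^ 2 * hzero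
      rw [h1]
      have h2 : -((a j : ZMod p) * (r + a j * τ₀) ^ 2 * β) -
          0 + 4 * (a j : ZMod p) * (r + a j * τ₀) ^ 2 * β - 0 -
          (4 * (a j : ZMod p) * (r + a j * τ₀) ^ 2 * β) =
          -((a j : ZMod p) * (r + a j * τ₀) ^ 2 * β) := by ring
      rw [h2]
      exact neg_ne_zero.2 (mul_ne_zero (mul_ne_zero (H.na j) (pow_ne_zero 2 hℓ0)) H.nβ)
    have hDq : ((D : ℤ_[p]) : ℚ_[p]) ≠ 0 := ne_of_one (red_one.1 hD1)
    set g : ℚ_[p] → ℚ_[p] := fun t => fm c (update X j t) (fun _ => 1) with hg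
    have hgv : ∀ t, g t = (f 0 : ℚ_[p]) + f 1 * t + f 2 * t ^ 2 + f 3 * t ^ 3 + f 4 * t ^ 4 := by
      intro t
      rw [hg]
      dsimp only
      rw [fm_co]
      have : ∀ b, co c j X b = ((f b : ℤ_[p]) : ℚ_[p]) := by
        intro b
        have h1 := map_co c j (PadicInt.Coe.ringHom (p := p)) X0 b
        rw [hX0]
        exact h1.symm
      simp only [Fin.sum_univ_five, this]
      simp
    have hgd : HasStrictDerivAt g (D : ℚ_[p]) (X j) := by
      have h1 : HasStrictDerivAt (fun t : ℚ_[p] => t) 1 (X j) := hasStrictDerivAt_id _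
      have h2 := ((((h1.const_mul (f 1 : ℚ_[p])).const_add (f 0 : ℚ_[p])).add
        ((h1.pow 2).const_mul (f 2 : ℚ_[p]))).add
        ((h1.pow 3).const_mul (f 3 : ℚ_[p]))).add
        ((h1.pow 4).const_mul (f 4 : ℚ_[p]))
      have e1 : g = fun t : ℚ_[p] => (f 0 : ℚ_[p]) + f 1 * t + f 2 * t ^ 2 + f 3 * t ^ 3 +
          f 4 * t ^ 4 := funext hgv
      rw [e1]
      refine HasStrictDerivAt.congr_deriv h2 ?_
      have c2 : ((2 : ℤ_[p]) : ℚ_[p]) = 2 := map_ofNat (PadicInt.Coe.ringHom (p := p)) 2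
      have c3 : ((3 : ℤ_[p]) : ℚ_[p]) = 3 := map_ofNat (PadicInt.Coe.ringHom (p := p)) 3
      have c4 : ((4 : ℤ_[p]) : ℚ_[p]) = 4 := map_ofNat (PadicInt.Coe.ringHom (p := p)) 4
      rw [hD, hX0]
      push_cast
      rw [c2, c3, c4]
      ring
    have hmap := hgd.map_nhds_eq hDq
    have hg0 : g (X j) = 0 := by
      rw [hg]
      dsimp only
      rw [update_eq_self, ← hW]
      ring
    have h3 : g '' Metric.ball (X j) η ∈ 𝓝 (g (X j)) := by
      rw [← hmap]
      exact Filter.image_mem_map (Metric.ball_mem_nhds (X j) hη)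
    rw [hg0] at h3
    obtain ⟨δ, hδ, hb⟩ := Metric.mem_nhds_iff.1 h3
    obtain ⟨J, hJ1, hJ2⟩ : ∃ J : ℕ, ‖(p : ℚ_[p])‖ ^ J < η ∧ ‖(p : ℚ_[p])‖ ^ J < min δ 1 := by
      have ht := tendsto_pow_atTop_nhds_zero_of_lt_one (norm_nonneg _) (norm_p_lt (p := p))
      exact ((ht.eventually_lt_const hη).and (ht.eventually_lt_const
        (lt_min hδ one_pos))).exists
    have hs : ((p : ℚ_[p]) ^ J) ^ 2 ∈ Metric.ball (0 : ℚ_[p]) δ := by
      rw [mem_ball_zero_iff, norm_pow, norm_pow]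
      have h4 := hJ2.trans_le (min_le_left _ _)
      have h5 := hJ2.trans_le (min_le_right _ _)
      have h6 : 0 ≤ ‖(p : ℚ_[p])‖ ^ J := by positivity
      nlinarith
    obtain ⟨t, ht1, ht2⟩ := hb hs
    refine ⟨t, (p : ℚ_[p]) ^ J, pow_ne_zero _ (by exact_mod_cast hp.out.ne_zero), ht2.symm,
      mem_ball_iff_norm.1 ht1, ?_⟩
    rw [sub_zero, norm_pow]; exact hJ1
  · exact ⟨X j, W, hW0, by rw [update_eq_self]; exact hW, by rw [sub_self, norm_zero]; exact hη,
      by rw [sub_self, norm_zero]; exact hη⟩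

lemma den_ndvd {x : ℚ} (hx : ‖(x : ℚ_[p])‖ ≤ 1) : ¬ (p : ℤ) ∣ (x.den : ℤ) := by
  intro h
  have h1 : ‖((x.den : ℤ) : ℚ_[p])‖ < 1 := Padic.norm_intCast_lt_one_iff.2 h
  have h2 : ¬ (p : ℤ) ∣ x.num := by
    intro h3
    have h4 : p ∣ x.num.natAbs := Int.natCast_dvd.1 h3
    have h5 : p ∣ x.den := by exact_mod_cast h
    have h6 := Nat.dvd_gcd h4 h5
    rw [x.reduced] at h6
    exact hp.out.one_lt.ne' (Nat.dvd_one.1 h6)
  have h3 : ‖((x.num : ℤ) : ℚ_[p])‖ = 1 := by
    apply le_antisymm (Padic.norm_int_le_one _)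
    by_contra hcon
    push Not at hcon
    exact h2 (Padic.norm_intCast_lt_one_iff.1 hcon)
  have h4 : (x : ℚ_[p]) * ((x.den : ℤ) : ℚ_[p]) = (x.num : ℚ_[p]) := by
    have := Rat.mul_den_eq_num x
    exact_mod_cast congrArg (fun q : ℚ => (q : ℚ_[p])) this
  rw [← h4, norm_mul] at h3
  have h5 : ‖(x : ℚ_[p])‖ * ‖((x.den : ℤ) : ℚ_[p])‖ ≤ 1 * ‖((x.den : ℤ) : ℚ_[p])‖ :=
    mul_le_mul_of_nonneg_right hx (norm_nonneg _)
  linarith

lemma unit_norm {n : ℤ} (h : ¬ (p : ℤ) ∣ n) : ‖(n : ℚ_[p])‖ = 1 := by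
  apply le_antisymm (Padic.norm_int_le_one _)
  by_contra hcon
  push Not at hcon
  exact h (Padic.norm_intCast_lt_one_iff.1 hcon)

end one

section crt

variable {κ : Type*} [Fintype κ] {p : κ → ℕ} [hp : ∀ i, Fact (p i).Prime]

/-- the Chinese remainder theorem -/
lemma crtκ (hinj : Injective p) (r : κ → ℤ) : ∃ x : ℤ, ∀ i, (p i : ℤ) ∣ x - r i := by
  classical
  set S : Finset Nat.Primes := Finset.univ.image fun i : κ => ⟨p i, (hp i).out⟩ with hS
  set a : Nat.Primes → ℤ := fun q => if h : ∃ i, p i = (q : ℕ) then r h.choose else 0 with ha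
  obtain ⟨x, -, hx⟩ := crt 1 S (fun _ _ => Nat.coprime_one_left _) 0 a
  refine ⟨x, fun i => ?_⟩
  have h1 := hx ⟨p i, (hp i).out⟩ (Finset.mem_image.2 ⟨i, Finset.mem_univ _, rfl⟩)
  have h2 : a ⟨p i, (hp i).out⟩ = r i := by
    have hex : ∃ i', p i' = p i := ⟨i, rfl⟩
    rw [ha]
    dsimp only
    rw [dif_pos hex]
    congr 1
    exact hinj hex.choose_spec
  rw [h2] at h1
  exact (Dvd.intro_left _ (by ring : ((p i : ℕ) : ℤ) * (p i : ℕ) = ((p i : ℕ) : ℤ) ^ 2)).trans h1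

lemma lin_solve {p : ℕ} [hp : Fact p.Prime] {u v : ℤ} (hu : (u : ZMod p) ≠ 0) :
    ∃ r : ℤ, (p : ℤ) ∣ u * r + v := by
  refine ⟨((-(v : ZMod p) / u).val : ℤ), ?_⟩
  rw [← ZMod.intCast_zmod_eq_zero_iff_dvd]
  push_cast
  rw [ZMod.natCast_zmod_val, mul_div_cancel₀ _ hu]
  ring

end crt

end Pool.Agent.Y720.MZ
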