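import Pool.Agent.Y720.WE.N4
import Pool.Agent.Y720.WA.Den4

/-!
# Zariski density of the rational points in open sets of local points (helper720)
-/

set_option autoImplicit false
set_option linter.unusedVariables false
set_option linter.unusedSectionVars false

open Function Filter Topology

namespace Pool.Agent.Y720.MZ

/-- a polynomial in `w` and `z` whose norm vanishes is divisible by `w² - f` -/
lemma dvd_of_norm {K : Type*} [Field K] [CharZero K] {α : Type*} {f : MvPolynomial α K}
    (hsq : ¬IsSquare f) {P : (α → K) → K → Prop} (hP : ∀ z w, P z w → w ^ 2 = MvPolynomial.eval z f)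
    (hN : ∀ N : MvPolynomial α K, (∀ z w, P z w → MvPolynomial.eval z N = 0) → N = 0)
    {g : MvPolynomial (Option α) K}
    (hg : ∀ z w, P z w → MvPolynomial.eval (fun o => o.elim w z) g = 0) :
    (MvPolynomial.X none ^ 2 - MvPolynomial.rename some f) ∣ g := by
  set G := MvPolynomial.optionEquivLeft K α g with hG
  set q : Polynomial (MvPolynomial α K) := Polynomial.X ^ 2 - Polynomial.C f with hq
  have hqm : q.Monic := by
    rw [hq]; exact Polynomial.monic_X_pow_sub_C f two_ne_zero
  set r := G %ₘ q with hr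
  have hqd : q.natDegree = 2 := by rw [hq]; exact Polynomial.natDegree_X_pow_sub_C
  have hrd : r.natDegree < 2 := by
    rw [← hqd, hr]
    exact Polynomial.natDegree_modByMonic_lt _ hqm (by
      intro h
      rw [h] at hqd
      simp at hqd)
  have hr' : r = .C (r.coeff 0) + .C (r.coeff 1) * .X := by
    conv_lhs => rw [r.as_sum_range_C_mul_X_pow' (n := 2) (by omega)]
    simp [Finset.sum_range_succ]
  set g0 := r.coeff 0
  set g1 := r.coeff 1
  have hdiv : G = r + q * (G /ₘ q) := (Polynomial.modByMonic_add_div G q).symm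
  have hN : g0 ^ 2 - f * g1 ^ 2 = 0 := by
    apply hN
    intro z w hz
    have hzw' := hP z w hz
    have h1 := hg z w hz
    rw [eval_option, ← hG, hdiv] at h1
    rw [Polynomial.map_add, Polynomial.map_mul, Polynomial.eval_add, Polynomial.eval_mul] at h1
    have h2 : (q.map (MvPolynomial.eval z)).eval w = 0 := by
      rw [hq]; simp [hzw']
    rw [h2, zero_mul, add_zero, hr'] at h1
    simp only [Polynomial.map_add, Polynomial.map_C, Polynomial.map_mul, Polynomial.map_X,
      Polynomial.eval_add, Polynomial.eval_C, Polynomial.eval_mul, Polynomial.eval_X] at h1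
    rw [map_sub, map_mul, map_pow, map_pow, ← hzw']
    linear_combination (MvPolynomial.eval z g0 - w * MvPolynomial.eval z g1) * h1
  have hg1 : g1 = 0 := by
    by_contra h1
    have h2 : g1 ^ 2 ∣ g0 ^ 2 := ⟨f, by linear_combination hN⟩
    have h3 : g1 ∣ g0 := (IsIntegrallyClosed.pow_dvd_pow_iff two_ne_zero).1 h2
    obtain ⟨d, hd⟩ := h3
    apply hsq
    refine ⟨d, ?_⟩
    apply mul_left_cancel₀ (pow_ne_zero 2 h1)
    rw [hd] at hN
    linear_combination -hN
  have hg0 : g0 = 0 := by
    rw [hg1] at hN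
    have : g0 ^ 2 = 0 := by linear_combination hN
    exact pow_eq_zero_iff two_ne_zero |>.1 this
  have hr0 : r = 0 := by rw [hr', hg0, hg1]; simp
  have h5 : q ∣ G := by
    rw [hdiv, hr0, zero_add]
    exact dvd_mul_right _ _
  have h6 : MvPolynomial.optionEquivLeft K α
      (MvPolynomial.X none ^ 2 - MvPolynomial.rename some f) = q := by
    rw [hq, map_sub, map_pow, MvPolynomial.optionEquivLeft_X_none]
    congr 1
    have : ∀ f : MvPolynomial α K, MvPolynomial.optionEquivLeft K α
        (MvPolynomial.rename some f) = Polynomial.C f := by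
      intro f
      induction f using MvPolynomial.induction_on with
      | C a => simp [MvPolynomial.optionEquivLeft_C]
      | add p q hp hq => rw [map_add, map_add, hp, hq, map_add]
      | mul_X p i hp =>
        rw [map_mul, map_mul, hp, MvPolynomial.rename_X, MvPolynomial.optionEquivLeft_X_some,
          map_mul]
    exact this f
  rw [← h6] at h5
  exact (map_dvd_iff (MvPolynomial.optionEquivLeft K α)).1 h5

variable {ι : Type*} [Fintype ι] [DecidableEq ι]

/-- the polynomial with the coefficients `c` -/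
noncomputable def pl (c : (ι → Fin 5) → ℤ) : MvPolynomial ι ℚ :=
  ∑ e : ι → Fin 5, MvPolynomial.C (c e : ℚ) * ∏ i, MvPolynomial.X i ^ (e i : ℕ)

lemma eval_pl (c : (ι → Fin 5) → ℤ) (x : ι → ℚ) :
    MvPolynomial.eval x (pl c) = fm c x fun _ => 1 := by
  unfold pl fm
  rw [map_sum]
  refine Finset.sum_congr rfl fun e _ => ?_
  rw [map_mul, MvPolynomial.eval_C, map_prod]
  congr 1
  refine Finset.prod_congr rfl fun i _ => ?_
  rw [map_pow, MvPolynomial.eval_X, one_pow, mul_one]

lemma SP.nsq {p : ℕ} [hp : Fact p.Prime] {c : (ι → Fin 5) → ℤ} {ν β a₀ : ℤ} {a : ι → ℤ}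
    (H : SP p c ν β a₀ a) (j : ι) : ¬ IsSquare (pl c) := by
  rintro ⟨d, hd⟩
  have h3 : (3 : ZMod p) ≠ 0 := by
    have := H.nz (n := 3) (by norm_num) (by norm_num)
    exact_mod_cast this
  have h2 : (2 : ZMod p) ≠ 0 := by
    have := H.nz (n := 2) (by norm_num) (by norm_num)
    exact_mod_cast this
  set l : ZMod p := β / (3 * ν) with hl
  have hl1 : l * (3 * ν) = β := div_mul_cancel₀ _ (mul_ne_zero h3 H.nν)
  have hl0 : l ≠ 0 := div_ne_zero H.nβ (mul_ne_zero h3 H.nν)
  set t : ℤ := (((l - a₀) / a j : ZMod p).val : ℤ) with ht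
  have ht' : (t : ZMod p) = (l - a₀) / a j := by
    rw [ht, Int.cast_natCast, ZMod.natCast_zmod_val]
  set x : ι → ℤ := update (fun _ => 0) j t with hx
  have hln : ((ln (a₀) a x (fun _ => 1) : ℤ) : ZMod p) = l := by
    unfold ln
    simp only [Finset.prod_const_one, mul_one]
    rw [← Finset.add_sum_erase _ _ (Finset.mem_univ j)]
    have : ∑ i ∈ Finset.univ.erase j, a i * x i = 0 := by
      refine Finset.sum_eq_zero fun i hi => ?_
      rw [hx, update_of_ne (Finset.ne_of_mem_erase hi), mul_zero]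
    rw [this, hx, update_self]
    push_cast
    rw [ht', mul_div_cancel₀ _ (H.na j)]
    ring
  have h4 := (ZMod.intCast_zmod_eq_zero_iff_dvd _ p).2 (H.h1 x fun _ => 1)
  push_cast at h4
  rw [hln] at h4
  simp only [Finset.prod_const_one, mul_one] at h4
  have h5 : IsSquare ((fm c x (fun _ => 1) : ℤ) : ℚ) := by
    have h6 := eval_pl c fun i => (x i : ℚ)
    rw [hd, map_mul] at h6
    have h7 := map_fm c (Int.castRingHom ℚ) x fun _ => 1
    simp only [eq_intCast, Int.cast_one] at h7
    rw [h7, ← h6]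
    exact ⟨_, rfl⟩
  rw [Rat.isSquare_intCast_iff] at h5
  obtain ⟨s, hs⟩ := h5
  have h8 : ((s : ZMod p)) * s = 4 * ν * l ^ 4 := by
    have := congrArg (fun z : ℤ => (z : ZMod p)) hs
    push_cast at this
    rw [← this]
    linear_combination h4 - l ^ 3 * hl1
  apply H.hν
  refine ⟨s / (2 * l ^ 2), ?_⟩
  field_simp
  linear_combination -h8

variable {κ : Type*} [Fintype κ] {p : κ → ℕ} [hp : ∀ i, Fact (p i).Prime]
  {c : (ι → Fin 5) → ℤ} {ν β a₀ : κ → ℤ} {a : κ → ι → ℤ}

/-- **The rational points in an open set of local points are Zariski dense.** -/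
theorem zar [Nonempty κ] (hinj : Injective p)
    (H : ∀ i, SP (p i) c (ν i) (β i) (a₀ i) (a i)) {k₀ j₀ : ι} (hkj : k₀ ≠ j₀) {x : ι → ℚ} {w : ℚ}
    (hw2 : w ^ 2 = fm c x fun _ => 1) (hw : ∀ i, ‖(w : ℚ_[p i])‖ = 1) {X : ∀ i, ι → ℚ_[p i]}
    {W : ∀ i, ℚ_[p i]} (hX : ∀ i, W i ^ 2 = fm c (X i) fun _ => 1)
    {ε : ℝ} (hε : 0 < ε) {g : MvPolynomial (Option ι) ℚ}
    (hg : ∀ (z : ι → ℚ) (r : ℚ), r ^ 2 = fm c z (fun _ => 1) →
      (∀ i, (∀ l, ‖(z l : ℚ_[p i]) - X i l‖ < ε) ∧ ‖(r : ℚ_[p i]) - W i‖ < ε) →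
      MvPolynomial.eval (fun o => o.elim r z) g = 0) :
    (MvPolynomial.X none ^ 2 - MvPolynomial.rename some (pl c)) ∣ g := by
  classical
  obtain ⟨i₁⟩ := ‹Nonempty κ›
  have : Nonempty κ := ⟨i₁⟩
  refine dvd_of_norm ((H i₁).nsq j₀) (P := fun z r => r ^ 2 = fm c z (fun _ => 1) ∧
    ∀ i, (∀ l, ‖(z l : ℚ_[p i]) - X i l‖ < ε) ∧ ‖(r : ℚ_[p i]) - W i‖ < ε)
    (fun z r h => by rw [eval_pl]; exact h.1) ?_ (fun z r h => hg z r h.1 h.2)
  intro N hN
  have hε2 : 0 < ε / 2 := by positivity
  have hε4 : 0 < ε / 4 := by positivity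
  choose t W' k1 k2 k3 k4 using fun i => (H i).near j₀ (hX i) hε2
  -- the local neighbourhood
  obtain ⟨δ, hδ, hδs⟩ : ∃ δ : ℝ, 0 < δ ∧ ∀ z : ι → ℚ_[p i₁],
      (∀ l, ‖z l - update (X i₁) j₀ (t i₁) l‖ < δ) →
      ∃ Z : ℚ_[p i₁], ‖Z - W' i₁‖ < ε / 4 ∧ Z ^ 2 = fm c z fun _ => 1 := by
    obtain ⟨δ, hδ, hs⟩ := exists_sqrt (k1 i₁) hε4
    have hcont : Continuous fun z : ι → ℚ_[p i₁] => fm c z fun _ => 1 := by
      unfold fm; fun_prop
    have h1 : ∀ᶠ z in 𝓝 (update (X i₁) j₀ (t i₁)), ‖(fm c z fun _ => 1) - W' i₁ ^ 2‖ < δ := by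
      have h2 : Tendsto (fun z => ‖(fm c z fun _ => 1) - W' i₁ ^ 2‖)
          (𝓝 (update (X i₁) j₀ (t i₁))) (𝓝 0) := by
        have := ((hcont.tendsto (update (X i₁) j₀ (t i₁))).sub_const (W' i₁ ^ 2)).norm
        rwa [← k2 i₁, sub_self, norm_zero] at this
      exact h2.eventually_lt_const hδ
    obtain ⟨δ', hδ', hb⟩ := Metric.eventually_nhds_iff_ball.1 h1
    refine ⟨δ', hδ', fun z hz => hs _ (hb z ?_)⟩
    rw [mem_ball_iff_norm, pi_norm_lt_iff hδ']
    exact hz
  set δ₁ := min δ (ε / 4) with hδ₁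
  have hδ₁0 : 0 < δ₁ := lt_min hδ hε4
  set Np := MvPolynomial.map (algebraMap ℚ ℚ_[p i₁]) N with hNp
  have hupd : ∀ i l, ‖update (X i) j₀ (t i) l - X i l‖ < ε / 2 := by
    intro i l
    by_cases hl : l = j₀
    · subst hl; rw [update_self]; exact k3 i
    · rw [update_of_ne hl, sub_self, norm_zero]; exact hε2
  have hvan : ∀ z : ι → ℚ_[p i₁], (∀ l, ‖z l - update (X i₁) j₀ (t i₁) l‖ < δ₁) →
      MvPolynomial.eval z Np = 0 := by
    intro z hz
    obtain ⟨Z, hZ1, hZ2⟩ := hδs z fun l => (hz l).trans_le (min_le_left _ _)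
    by_contra hne
    have hcont : Continuous fun z : ι → ℚ_[p i₁] => MvPolynomial.eval z Np :=
      MvPolynomial.continuous_eval Np
    obtain ⟨η, hη, hb⟩ := Metric.eventually_nhds_iff_ball.1
      (hcont.continuousAt.eventually_ne hne)
    set X'' : ∀ i, ι → ℚ_[p i] := update (fun i => update (X i) j₀ (t i)) i₁ z with hX''
    set W'' : ∀ i, ℚ_[p i] := update W' i₁ Z with hW''
    obtain ⟨x₁, w₁, g1, g2⟩ := dense_n hinj H hkj hw2 hw (X := X'') (W := W'') (by
        intro i
        by_cases h : i = i₁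
        · subst h
          rw [hX'', hW'', update_self, update_self]
          exact hZ2
        · rw [hX'', hW'', update_of_ne h, update_of_ne h]
          exact k2 i) (ε := min η (ε / 4)) (lt_min hη hε4)
    have e1 := g2 i₁
    rw [hX'', hW'', update_self, update_self] at e1
    have hx₁ : MvPolynomial.eval (fun l => (x₁ l : ℚ_[p i₁])) Np = 0 := by
      have h1 := hN x₁ w₁ ⟨g1, fun i => ?_⟩
      · have h2 := MvPolynomial.eval₂_comp_left (algebraMap ℚ ℚ_[p i₁]) (RingHom.id ℚ) x₁ N
        rw [MvPolynomial.eval₂_id, h1, map_zero] at h2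
        rw [hNp, MvPolynomial.eval_map]
        exact h2.symm
      · by_cases h : i = i₁
        · subst h
          refine ⟨fun l => ?_, ?_⟩
          · have a1 := (e1.1 l).trans_le (min_le_right _ _)
            have a2 := (hz l).trans_le (min_le_right _ _)
            have a3 := hupd i l
            have a4 := norm_sub_le_norm_sub_add_norm_sub (x₁ l : ℚ_[p i]) (z l) (X i l)
            have a5 := norm_sub_le_norm_sub_add_norm_sub (z l)
              (update (X i) j₀ (t i) l) (X i l)
            linarith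
          · have a1 := e1.2.trans_le (min_le_right _ _)
            have a3 := k4 i
            have a4 := norm_sub_le_norm_sub_add_norm_sub (w₁ : ℚ_[p i]) Z (W i)
            have a5 := norm_sub_le_norm_sub_add_norm_sub Z (W' i) (W i)
            linarith
        · have e2 := g2 i
          rw [hX'', hW'', update_of_ne h, update_of_ne h] at e2
          refine ⟨fun l => ?_, ?_⟩
          · have a1 := (e2.1 l).trans_le (min_le_right _ _)
            have a3 := hupd i l
            have a4 := norm_sub_le_norm_sub_add_norm_sub (x₁ l : ℚ_[p i])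
              (update (X i) j₀ (t i) l) (X i l)
            linarith
          · have a1 := e2.2.trans_le (min_le_right _ _)
            have a3 := k4 i
            have a4 := norm_sub_le_norm_sub_add_norm_sub (w₁ : ℚ_[p i]) (W' i) (W i)
            linarith
    refine hb (fun l => (x₁ l : ℚ_[p i₁])) ?_ hx₁
    rw [mem_ball_iff_norm, pi_norm_lt_iff hη]
    intro l
    exact (e1.1 l).trans_le (min_le_left _ _)
  have hNp0 : Np = 0 := by
    apply MvPolynomial.funext_set
      (fun l => Metric.ball (update (X i₁) j₀ (t i₁) l) δ₁)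
    · intro l
      exact infinite_of_mem_nhds _ (Metric.ball_mem_nhds _ hδ₁0)
    · intro z hz
      rw [map_zero]
      apply hvan
      intro l
      exact mem_ball_iff_norm.1 (hz l (Set.mem_univ _))
  apply MvPolynomial.map_injective (algebraMap ℚ ℚ_[p i₁]) (algebraMap ℚ ℚ_[p i₁]).injective
  rw [map_zero]
  exact hNp0

end Pool.Agent.Y720.MZ
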